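import Pool.Agent.helper84.NR.SpecW

/-!
# nrw:WLXW: the walk along a face at `x`
-/

set_option autoImplicit false

namespace Pool.Agent.helper84.NR

open scoped Classical
open Finset

theorem WLXW_cx {V F : Type} (M : PMap V F) (x : V) (A : F) (hA : OnV M.toCyc A x) (j : ℕ)
    (h1 : 1 ≤ j) (h2 : j + 1 < M.len A) : cx M x s(ww M x A j, ww M x A (j + 1)) := by
  have hinj := (h_IDX V F M.toCyc A (st M x A)).1
  have hu0 : ww M x A 0 = x := (h_WW0 V F M x A hA).1
  refine ⟨?_, A, hA, st M x A + j, rfl⟩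
  intro hx
  rcases Sym2.mem_iff.1 hx with h | h
  · have h3 := hinj 0 j (by omega) (by omega) (hu0.trans h)
    omega
  · have h3 := hinj 0 (j + 1) (by omega) (by omega) (hu0.trans h)
    omega

theorem WLXW (hSTE : STE_stmt) : WLXW_stmt := by
  intro V F _ _ M x y J hT q hq A hA i hi1 hi2 hg
  have down : ∀ j, 1 ≤ j → j + 1 < M.len A →
      Has M x y J q s(ww M x A j, ww M x A (j + 1)) →
      ∃ i1, 1 ≤ i1 ∧ i1 ≤ j ∧
        ((∃ B, OnV M.toCyc B y ∧ OnV M.toCyc B (ww M x A i1)) ∨ i1 = 1) ∧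
        Has M x y J q s(ww M x A i1, ww M x A (i1 + 1)) := by
    intro j
    induction j with
    | zero => intro h; omega
    | succ j ih =>
      intro h1 h2 h
      by_cases hj : ∃ B, OnV M.toCyc B y ∧ OnV M.toCyc B (ww M x A (j + 1))
      · exact ⟨j + 1, h1, le_refl _, Or.inl hj, h⟩
      · rcases Nat.eq_zero_or_pos j with h0 | h0
        · subst h0
          exact ⟨1, le_refl _, le_refl _, Or.inr rfl, h⟩
        · have h5 := hSTE V F M x y J hT q hq (ww M x A (j + 1)) hj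
            s(ww M x A (j + 1), ww M x A (j + 1 + 1)) s(ww M x A j, ww M x A (j + 1))
            (Sym2.mem_mk_left _ _) (Sym2.mem_mk_right _ _)
            (WLXW_cx M x A hA (j + 1) h1 h2) (WLXW_cx M x A hA j h0 (by omega)) h
          obtain ⟨i1, a1, a2, a3, a4⟩ := ih h0 (by omega) h5
          exact ⟨i1, a1, by omega, a3, a4⟩
  have up : ∀ m j, M.len A - j ≤ m → 1 ≤ j → j + 1 < M.len A →
      Has M x y J q s(ww M x A j, ww M x A (j + 1)) →
      ∃ i2, j + 1 ≤ i2 ∧ i2 < M.len A ∧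
        ((∃ B, OnV M.toCyc B y ∧ OnV M.toCyc B (ww M x A i2)) ∨ i2 + 1 = M.len A) ∧
        Has M x y J q s(ww M x A (i2 - 1), ww M x A i2) := by
    intro m
    induction m with
    | zero => intro j hm h1 h2; omega
    | succ m ih =>
      intro j hm h1 h2 h
      by_cases hj : ∃ B, OnV M.toCyc B y ∧ OnV M.toCyc B (ww M x A (j + 1))
      · exact ⟨j + 1, le_refl _, h2, Or.inl hj, by rw [Nat.add_sub_cancel]; exact h⟩
      · rcases Nat.lt_or_ge (j + 2) (M.len A) with h0 | h0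
        · have h5 := hSTE V F M x y J hT q hq (ww M x A (j + 1)) hj
            s(ww M x A j, ww M x A (j + 1)) s(ww M x A (j + 1), ww M x A (j + 1 + 1))
            (Sym2.mem_mk_right _ _) (Sym2.mem_mk_left _ _)
            (WLXW_cx M x A hA j h1 h2) (WLXW_cx M x A hA (j + 1) (by omega) h0) h
          obtain ⟨i2, a1, a2, a3, a4⟩ := ih (j + 1) (by omega) (by omega) h0 h5
          exact ⟨i2, by omega, a2, a3, a4⟩
        · exact ⟨j + 1, le_refl _, h2, Or.inr (by omega), by rw [Nat.add_sub_cancel]; exact h⟩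
  obtain ⟨i1, a1, a2, a3, a4⟩ := down i hi1 hi2 hg
  obtain ⟨i2, b1, b2, b3, b4⟩ := up _ i (le_refl _) hi1 hi2 hg
  exact ⟨i1, i2, a1, a2, b1, b2, a3, b3, a4, b4⟩

end Pool.Agent.helper84.NR
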